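import Pool.Agent.Helper24.KK.GoalsA

/-! # KK packet CNE (MP_9a4587_an) -/

set_option autoImplicit false

namespace Pool.Agent.Helper12.KK

open Finset Pool.Agent.Helper24.KK

/-- CNE. -/
theorem cne : CNE := by
  intro Φ _ _ l s t hst hl
  have hcard : ((univ.erase s).erase t : Finset Φ).card = Fintype.card Φ - 2 := by
    rw [card_erase_of_mem (mem_erase.2 ⟨hst.symm, mem_univ t⟩), card_erase_of_mem (mem_univ s),
      card_univ]
    rfl
  rw [← hcard, ← card_powersetCard]
  refine card_bij (fun S _ => S.1.erase s) ?_ ?_ ?_
  · intro S hS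
    rw [mem_filter] at hS
    rw [mem_powersetCard]
    refine ⟨fun x hx => ?_, ?_⟩
    · rw [mem_erase] at hx
      rw [mem_erase, mem_erase]
      refine ⟨?_, hx.1, mem_univ x⟩
      intro h
      rw [h] at hx
      exact hS.2.2 hx.2
    · rw [card_erase_of_mem hS.2.1, S.2]
  · intro S hS T hT h
    rw [mem_filter] at hS hT
    apply Subtype.ext
    have h1 := congrArg (insert s) h
    simpa only [insert_erase hS.2.1, insert_erase hT.2.1] using h1
  · intro U hU
    rw [mem_powersetCard] at hU
    have hs : s ∉ U := by
      intro h
      have := hU.1 h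
      rw [mem_erase, mem_erase] at this
      exact this.2.1 rfl
    have ht : t ∉ U := by
      intro h
      have := hU.1 h
      rw [mem_erase] at this
      exact this.1 rfl
    refine ⟨⟨insert s U, ?_⟩, ?_, ?_⟩
    · rw [card_insert_of_notMem hs, hU.2]
      omega
    · rw [mem_filter]
      refine ⟨mem_univ _, mem_insert_self s U, ?_⟩
      rw [mem_insert]
      rintro (h | h)
      · exact hst h.symm
      · exact ht h
    · exact erase_insert hs

end Pool.Agent.Helper12.KK
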